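import Pool.Agent.R435.Cu.Fin

open Set Metric MeasureTheory
open scoped ContDiff

namespace Pool.Agent.Results.MP_8a3eee_an.EndpointExponentsAttained

/-- `G` is the weak (distributional) differential of `f` on the plane: integration by parts holds
against every smooth compactly supported test function, in every direction `v`. -/
def IsWeakDeriv (f : ℂ → ℂ) (G : ℂ → ℂ →L[ℝ] ℂ) : Prop :=
  ∀ φ : ℂ → ℝ, ContDiff ℝ ∞ φ → HasCompactSupport φ →
    ∀ v : ℂ, ∫ x, φ x • G x v = - ∫ x, (fderiv ℝ φ x v) • f x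

/-- The homeomorphism `f` is a map of finite distortion with differential `G = Df`: `f` and `G` are
locally integrable, `G` is the weak differential of `f` (so `f ∈ W^{1,1}_loc`), the Jacobian
`J_f = det G` is locally integrable, and `|Df|² ≤ K J_f` almost everywhere for a measurable
`K : ℂ → [1,∞)`; `‖·‖` on `ℂ →L[ℝ] ℂ` is the operator norm for the Euclidean norm. -/
structure FiniteDistortion (f : ℂ → ℂ) (G : ℂ → ℂ →L[ℝ] ℂ) : Prop where
  locInt : LocallyIntegrable f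
  locIntD : LocallyIntegrable G
  weak : IsWeakDeriv f G
  jac : LocallyIntegrable (fun z => (G z).det)
  dist : ∃ K : ℂ → ℝ, Measurable K ∧ (∀ z, 1 ≤ K z) ∧ ∀ᵐ z : ℂ, ‖G z‖ ^ 2 ≤ K z * (G z).det

/-- The distortion function `K_f = |Df|²/J_f` where `J_f > 0`, and `1` elsewhere. -/
noncomputable def Kdist (G : ℂ → ℂ →L[ℝ] ℂ) (z : ℂ) : ℝ :=
  if 0 < (G z).det then ‖G z‖ ^ 2 / (G z).det else 1

/-- The domain `Ω_s` with an outward cusp at the origin. -/
def Omega (s : ℝ) : Set ℂ :=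
  {z | 0 < z.re ∧ z.re < 1 ∧ |z.im| < z.re ^ (1 + s)} ∪
    ball (((s + 2 : ℝ) : ℂ)) (Real.sqrt ((s + 1) ^ 2 + 1))

/-- The domain `G_s` with an inward cusp at the origin. -/
def GDomain (s : ℝ) : Set ℂ :=
  ball (((-s : ℝ) : ℂ)) (Real.sqrt ((s + 1) ^ 2 + 1)) \
    {z | 0 ≤ z.re ∧ |z.im| ≤ z.re ^ (1 + s)}

open Pool.Agent.R435.Cu in
lemma main (p : Par) (hk : p.s * p.lam = 1 ∨ (p.s * p.lam = 2 ∧
    16 * (1 + p.s) * p.lam^2 * Real.exp 2 ≤ p.L^2)) (c : ℂ) :
    FiniteDistortion ((Homeomorph.addRight c).trans p.dat.homeo) (fun z => fderiv ℝ p.dat.P (z + c)) ∧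
    LocallyIntegrable (fun z => Real.exp (p.lam * Kdist (fun z => fderiv ℝ p.dat.P (z + c)) z)) := by
  refine ⟨⟨?_, ?_, ?_, ?_, ?_⟩, ?_⟩
  · exact (Homeomorph.continuous _).locallyIntegrable
  · exact locInt_translate p.ctl.fderiv_locInt c
  · exact weak_translate p.weakP c
  · exact locInt_translate (Ctl.det_locInt (R := p.reg)) c
  · refine ⟨fun z => Kf p.dat.P (z + c), (Kf_measurable _).comp (measurable_add_const c),
      fun z => Kf_ge _ _, ?_⟩
    exact ae_translate p.ae_dist c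
  · exact locInt_translate (p.ctl.exp_locInt p.hlam.le (p.near2 hk)) c

lemma ball_shift (c z : ℂ) : z ∈ ball (0:ℂ) 1 ↔ z + c ∈ ball c 1 := by
  simp [mem_ball, dist_eq_norm]

open Pool.Agent.R435.Cu in
/-- **Both endpoint exponents are attained, for every `s > 0`.**
(Q1) For `λ = 2/s` there is a homeomorphism `f` of the plane of finite distortion with
`exp(λ K_f) ∈ L¹_loc` and `f(B(0,1)) = Ω_s`, and there is one with `f(B(0,1)) = G_s`.
(Q2) For `λ = 1/s` there is one with `f(B(0,1)) = Ω_s` that is quasiconformal in `B(0,1)`. -/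
theorem result (s : ℝ) (hs : 0 < s) :
    (∃ (f : ℂ ≃ₜ ℂ) (G : ℂ → ℂ →L[ℝ] ℂ), FiniteDistortion f G ∧
      LocallyIntegrable (fun z => Real.exp (2 / s * Kdist G z)) ∧ f '' ball 0 1 = Omega s) ∧
    (∃ (f : ℂ ≃ₜ ℂ) (G : ℂ → ℂ →L[ℝ] ℂ), FiniteDistortion f G ∧
      LocallyIntegrable (fun z => Real.exp (2 / s * Kdist G z)) ∧ f '' ball 0 1 = GDomain s) ∧
    (∃ (f : ℂ ≃ₜ ℂ) (G : ℂ → ℂ →L[ℝ] ℂ), FiniteDistortion f G ∧
      LocallyIntegrable (fun z => Real.exp (1 / s * Kdist G z)) ∧ f '' ball 0 1 = Omega s ∧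
      ∃ M : ℝ, ∀ᵐ z ∂(volume.restrict (ball (0:ℂ) 1)), Kdist G z ≤ M) := by
  have h2 : 0 < 2 / s := by positivity
  have h1 : 0 < 1 / s := by positivity
  refine ⟨?_, ?_, ?_⟩
  · let p := parOm s (2 / s) (LL s) hs h2 (LL_ge hs)
    have hm := main p (Or.inr ⟨by show s * (2 / s) = 2; field_simp, LL_sq hs⟩) 1
    refine ⟨_, _, hm.1, hm.2, image_ball fun z => ?_⟩
    rw [ball_shift 1]
    exact p.Om_iff rfl (z + 1)
  · let p := parG s (2 / s) (LL s) hs h2 (LL_ge hs)
    have hm := main p (Or.inr ⟨by show s * (2 / s) = 2; field_simp, LL_sq hs⟩) (-1)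
    refine ⟨_, _, hm.1, hm.2, image_ball fun z => ?_⟩
    rw [ball_shift (-1)]
    exact p.G_iff rfl (z + -1)
  · let p := parOm s (1 / s) 1 hs h1 le_rfl
    have hk : p.s * p.lam = 1 := by show s * (1 / s) = 1; field_simp
    have hm := main p (Or.inl hk) 1
    refine ⟨_, _, hm.1, hm.2, image_ball fun z => ?_, ?_⟩
    · rw [ball_shift 1]
      exact p.Om_iff rfl (z + 1)
    · obtain ⟨M, hM⟩ := p.qc_bound rfl hk
      refine ⟨M, ?_⟩
      rw [ae_restrict_iff' measurableSet_ball]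
      filter_upwards [ae_translate hM 1] with z hz hz2
      exact hz ((ball_shift 1 z).mp hz2)

end Pool.Agent.Results.MP_8a3eee_an.EndpointExponentsAttained
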